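import Mathlib

/-! Definitions for the associated form map (problem MP_6257c5_ag). -/

set_option autoImplicit false

namespace Pool.Agent.H22.AF

open MvPolynomial

/-- `f` is nondegenerate: its partial derivatives have no common zero except `0`. -/
def Nondegenerate {n : ℕ} (f : MvPolynomial (Fin n) ℂ) : Prop :=
  ∀ z : Fin n → ℂ, (∀ i, eval z (pderiv i f) = 0) → z = 0

/-- The Jacobian ideal of `f`. -/
noncomputable def jacobianIdeal {n : ℕ} (f : MvPolynomial (Fin n) ℂ) :
    Ideal (MvPolynomial (Fin n) ℂ) :=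
  Ideal.span (Set.range fun i => pderiv i f)

/-- The Hessian determinant of `f`. -/
noncomputable def hess {n : ℕ} (f : MvPolynomial (Fin n) ℂ) : MvPolynomial (Fin n) ℂ :=
  (Matrix.of fun i j : Fin n => pderiv i (pderiv j f)).det

/-- `ω` induces the functional `ω_f` of the problem file: it kills the part of degree `n (d - 2)`
of the Jacobian ideal and takes the value `1` at the Hessian. -/
def IsOmega {n : ℕ} (d : ℕ) (f : MvPolynomial (Fin n) ℂ)
    (ω : MvPolynomial (Fin n) ℂ →ₗ[ℂ] ℂ) : Prop :=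
  (∀ g ∈ jacobianIdeal f, g.IsHomogeneous (n * (d - 2)) → ω g = 0) ∧ ω (hess f) = 1

/-- `F` is the associated form of the form `f` of degree `d`. -/
def IsAssociated {n : ℕ} (d : ℕ) (f F : MvPolynomial (Fin n) ℂ) : Prop :=
  ∃ ω : MvPolynomial (Fin n) ℂ →ₗ[ℂ] ℂ, IsOmega d f ω ∧
    ∀ e : Fin n → ℂ, eval e F = ω ((∑ i, C (e i) * X i) ^ (n * (d - 2)))

/-- The degrees `d_0 = d`, `d_(j+1) = n (d_j - 2)`. -/
def degSeq (n d : ℕ) : ℕ → ℕ
  | 0 => d
  | k + 1 => n * (degSeq n d k - 2)

end Pool.Agent.H22.AF
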