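import Pool.Agent.H22.AF.Step

/-! Iterating the associated form map on Hermite forms. -/

set_option autoImplicit false

namespace Pool.Agent.H22.AF

open MvPolynomial

section uniq

variable {i j : Fin 2} (hij : i ≠ j) {α β c : ℂ} (hα : α ≠ 0) (hβ : β ≠ 0) (hc : c ≠ 0) {e : ℕ}

theorem mul_deriv_mem (f h : MvPolynomial (Fin 2) ℂ) (l : Fin 2) :
    h * pderiv l f ∈ jacobianIdeal f :=
  Ideal.mul_mem_left _ _ (Ideal.subset_span ⟨l, rfl⟩)

include hij hα hβ hc in
/-- A functional killing the ideal kills the elements of `T`. -/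
theorem kills_T {lam : MvPolynomial (Fin 2) ℂ →ₗ[ℂ] ℂ}
    (hlam : ∀ g ∈ jacobianIdeal (C c * Hf (C α * X i) (C β * X j) (e + 4)),
      g.IsHomogeneous (2 * (e + 4 - 2)) → lam g = 0) {g : MvPolynomial (Fin 2) ℂ}
    (hg : g ∈ T (C α * X i) (C β * X j) e (e + 1)) : lam g = 0 := by
  obtain ⟨P, Q, hP, hQ, rfl⟩ := hg
  have hU := isHomogeneous_C_mul_X α i
  have hV := isHomogeneous_C_mul_X β j
  have hi := deriv_i_form hij (α := α) (β := β) (c := c) (e := e)
  have hj := deriv_j_form hij (α := α) (β := β) (c := c) (e := e)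
  have hA0 : c * (((e + 3 : ℕ) : ℂ) + 1) * β ≠ 0 :=
    mul_ne_zero (mul_ne_zero hc (Nat.cast_add_one_ne_zero _)) hβ
  have hB0 : -(c * (((e + 2 : ℕ) : ℂ) + 2) * (((e + 2 : ℕ) : ℂ) + 1) * α) ≠ 0 := by
    have h1 : (((e + 2 : ℕ) : ℂ) + 1) ≠ 0 := Nat.cast_add_one_ne_zero _
    have h2 := cast_ne (e + 2) 2 (by norm_num)
    exact neg_ne_zero.mpr (mul_ne_zero (mul_ne_zero (mul_ne_zero hc (by exact_mod_cast h2)) h1) hα)
  set A : ℂ := c * (((e + 3 : ℕ) : ℂ) + 1) * β with hA
  set B : ℂ := -(c * (((e + 2 : ℕ) : ℂ) + 2) * (((e + 2 : ℕ) : ℂ) + 1) * α) with hB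
  have e1 : P * Hf (C α * X i) (C β * X j) (e + 3)
      = (C A⁻¹ * P) * pderiv j (C c * Hf (C α * X i) (C β * X j) (e + 4)) := by
    rw [hj]
    have : (C A⁻¹ : MvPolynomial (Fin 2) ℂ) * C A = 1 := by
      rw [← C_mul, inv_mul_cancel₀ hA0, C_1]
    linear_combination (-P * Hf (C α * X i) (C β * X j) (e + 3)) * this
  have e2 : Q * (C α * X i * Hf (C α * X i) (C β * X j) (e + 2))
      = (C B⁻¹ * Q) * pderiv i (C c * Hf (C α * X i) (C β * X j) (e + 4)) := by
    rw [hi]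
    have : (C B⁻¹ : MvPolynomial (Fin 2) ℂ) * C B = 1 := by
      rw [← C_mul, inv_mul_cancel₀ hB0, C_1]
    linear_combination (-Q * (C α * X i * Hf (C α * X i) (C β * X j) (e + 2))) * this
  refine hlam _ ?_ ?_
  · rw [e1, e2]
    exact Ideal.add_mem _ (mul_deriv_mem _ _ _) (mul_deriv_mem _ _ _)
  · rw [show 2 * (e + 4 - 2) = e + 1 + (e + 3) by omega]
    refine (hP.mul (isHomogeneous_Hf hU hV _)).add ?_
    have h := hU.mul (isHomogeneous_Hf hU hV (e + 2))
    rw [show 1 + (e + 2) = e + 3 by ring] at h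
    exact hQ.mul h

include hij hα hβ hc in
/-- The functional is unique up to a factor on forms of degree `2 e + 4`. -/
theorem lam_eq {lam : MvPolynomial (Fin 2) ℂ →ₗ[ℂ] ℂ}
    (hlam : ∀ g ∈ jacobianIdeal (C c * Hf (C α * X i) (C β * X j) (e + 4)),
      g.IsHomogeneous (2 * (e + 4 - 2)) → lam g = 0) (g : MvPolynomial (Fin 2) ℂ)
    (hg : g.IsHomogeneous (2 * (e + 4 - 2))) :
    lam g = lam ((C α * X i) ^ (2 * e + 4)) * om i α β g := by
  have hU := isHomogeneous_C_mul_X α i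
  have hV := isHomogeneous_C_mul_X β j
  rw [show 2 * (e + 4 - 2) = 2 * e + 4 by omega] at hg
  have hom : ∀ g ∈ jacobianIdeal (C c * Hf (C α * X i) (C β * X j) (e + 4)),
      g.IsHomogeneous (2 * (e + 4 - 2)) → om i α β g = 0 := fun g hg hg' =>
    om_kills hij hα hβ g hg hg'
  have hspan := mem_span_of_homogeneous (vars hij hα hβ) (2 * e + 4) g hg
  clear hg
  induction hspan using Submodule.span_induction with
  | mem x hx =>
    obtain ⟨n, m, hnm, rfl⟩ := hx
    rcases n with _ | n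
    · have hm : m = 2 * e + 4 := by omega
      subst hm
      rw [Hf_zero, mul_one, om_apply, map_pow (psi i α β), psi_U hα, one_pow, Gau_one, mul_one]
    · have hT := T_all hU hV (e := e) (n + 1) m (by omega) hnm
      rw [kills_T hij hα hβ hc hlam hT, kills_T hij hα hβ hc hom hT, mul_zero]
  | zero => rw [map_zero, map_zero, mul_zero]
  | add x y _ _ hx hy => rw [map_add, map_add, mul_add, hx, hy]
  | smul a x _ hx => rw [map_smul, map_smul, hx, smul_eq_mul, smul_eq_mul]; ring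

theorem isHomogeneous_second (f : MvPolynomial (Fin 2) ℂ) (d : ℕ) (hf : f.IsHomogeneous (d + 2))
    (k l : Fin 2) : (pderiv k (pderiv l f)).IsHomogeneous d := by
  have h1 : (pderiv l f).IsHomogeneous (d + 1) := hf.pderiv
  exact h1.pderiv

theorem isHomogeneous_hess (f : MvPolynomial (Fin 2) ℂ) (hf : f.IsHomogeneous (e + 4)) :
    (hess f).IsHomogeneous (2 * (e + 4 - 2)) := by
  rw [hess_two f (i := 0) (j := 1) (by decide), show 2 * (e + 4 - 2) = (e + 2) + (e + 2) by omega]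
  have h := isHomogeneous_second f (e + 2) hf
  exact ((h 0 0).mul (h 1 1)).sub ((h 0 1).mul (h 1 0))

theorem isHomogeneous_lin (t : Fin 2 → ℂ) (n : ℕ) :
    ((∑ l, C (t l) * X l : MvPolynomial (Fin 2) ℂ) ^ n).IsHomogeneous n := by
  have h : (∑ l, C (t l) * X l : MvPolynomial (Fin 2) ℂ).IsHomogeneous 1 :=
    IsHomogeneous.sum _ _ _ fun l _ => isHomogeneous_C_mul_X _ _
  have := h.pow n
  rwa [one_mul] at this

include hij in
theorem psi_lin (t : Fin 2 → ℂ) : psi i α β (∑ l, C (t l) * X l) =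
    Polynomial.C (t i * α⁻¹) + Polynomial.C (t j * β⁻¹) * Polynomial.X := by
  have e1 : (∑ l, C (t l) * X l : MvPolynomial (Fin 2) ℂ) = C (t i) * X i + C (t j) * X j := by
    rw [Fin.sum_univ_two]
    rcases two_cases hij 0 with h | h
    · have hj : j = 1 := by omega
      subst hj; rw [← h]
    · have hi : i = 1 := by omega
      subst hi; rw [← h, add_comm]
  rw [e1, map_add (psi i α β), map_mul (psi i α β), map_mul (psi i α β), psi_C, psi_C, psi, aeval_X,
    aeval_X, if_pos rfl, if_neg hij.symm, Polynomial.C_mul, Polynomial.C_mul]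
  ring

include hij hα hβ hc in
/-- The associated form of a Hermite form. -/
theorem exists_associated : ∃ κ : ℂ, κ ≠ 0 ∧ ∀ F : MvPolynomial (Fin 2) ℂ,
    IsAssociated (e + 4) (C c * Hf (C α * X i) (C β * X j) (e + 4)) F ↔
      F = C κ * Hf (C (Complex.I * β⁻¹) * X j) (C α⁻¹ * X i) (2 * (e + 4 - 2)) := by
  set f : MvPolynomial (Fin 2) ℂ := C c * Hf (C α * X i) (C β * X j) (e + 4) with hf
  set D : ℕ := 2 * (e + 4 - 2) with hD
  have hfh : f.IsHomogeneous (e + 4) := isHomogeneous_form (e + 4)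
  have hH := isHomogeneous_hess f hfh
  have hne : om i α β (hess f) ≠ 0 := om_hess hij hα hβ hc
  have hval : ∀ t : Fin 2 → ℂ, eval t (Hf (C (Complex.I * β⁻¹) * X j) (C α⁻¹ * X i) D) =
      om i α β ((∑ l, C (t l) * X l) ^ D) := by
    intro t
    have h1 := map_Hf (eval t) (C (Complex.I * β⁻¹) * X j) (C α⁻¹ * X i) D
    rw [h1, om_apply, map_pow (psi i α β), psi_lin hij, Gau_pow]
    simp only [map_mul, eval_C, eval_X]
    congr 1 <;> ring
  refine ⟨(om i α β (hess f))⁻¹, inv_ne_zero hne, fun F => ⟨?_, ?_⟩⟩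
  · rintro ⟨w, ⟨hw1, hw2⟩, hw3⟩
    have h1 := lam_eq hij hα hβ hc hw1
    have h2 := h1 (hess f) hH
    rw [hw2] at h2
    have h3 : w ((C α * X i) ^ (2 * e + 4)) = (om i α β (hess f))⁻¹ := by
      field_simp
      exact h2.symm
    refine MvPolynomial.funext fun t => ?_
    rw [hw3, h1 _ (isHomogeneous_lin t _), h3, map_mul, eval_C, hval t]
  · rintro rfl
    refine ⟨(om i α β (hess f))⁻¹ • om i α β, ⟨?_, ?_⟩, ?_⟩
    · intro g hg hg'
      rw [LinearMap.smul_apply, om_kills hij hα hβ g hg hg', smul_zero]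
    · rw [LinearMap.smul_apply, smul_eq_mul, inv_mul_cancel₀ hne]
    · intro t
      rw [map_mul, eval_C, hval t, LinearMap.smul_apply, smul_eq_mul]

include hij hα hβ hc in
theorem nondegenerate_form :
    Nondegenerate (C c * Hf (C α * X i) (C β * X j) (e + 4) : MvPolynomial (Fin 2) ℂ) := by
  intro z hz
  have h1 := hz i
  have h2 := hz j
  rw [deriv_i_form hij] at h1
  rw [deriv_j_form hij] at h2
  have hA0 : c * (((e + 3 : ℕ) : ℂ) + 1) * β ≠ 0 :=
    mul_ne_zero (mul_ne_zero hc (Nat.cast_add_one_ne_zero _)) hβ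
  have hB0 : -(c * (((e + 2 : ℕ) : ℂ) + 2) * (((e + 2 : ℕ) : ℂ) + 1) * α) ≠ 0 := by
    have h1 : (((e + 2 : ℕ) : ℂ) + 1) ≠ 0 := Nat.cast_add_one_ne_zero _
    have h2 := cast_ne (e + 2) 2 (by norm_num)
    exact neg_ne_zero.mpr (mul_ne_zero (mul_ne_zero (mul_ne_zero hc (by exact_mod_cast h2)) h1) hα)
  have hev : ∀ n, eval z (Hf (C α * X i) (C β * X j) n : MvPolynomial (Fin 2) ℂ) =
      Hf (α * z i) (β * z j) n := by
    intro n
    have := map_Hf (eval z) (C α * X i) (C β * X j) n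
    rw [this]
    simp
  rw [map_mul, map_mul, eval_C, hev] at h1
  rw [map_mul, eval_C, hev] at h2
  have h1' := (mul_eq_zero.mp h1).resolve_left hB0
  have h2' := (mul_eq_zero.mp h2).resolve_left hA0
  simp only [map_mul, eval_C, eval_X] at h1'
  set u := α * z i with hu
  set v := β * z j with hv
  have hu0 : u = 0 := by
    by_contra hu0
    have h3 := (mul_eq_zero.mp h1').resolve_left hu0
    -- downward recursion
    have hdown : ∀ k n, n + k = e + 2 → Hf u v n = 0 ∧ Hf u v (n + 1) = 0 := by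
      intro k
      induction k with
      | zero =>
        intro n hn
        obtain rfl : n = e + 2 := by omega
        exact ⟨h3, h2'⟩
      | succ k ih =>
        intro n hn
        obtain ⟨h4, h5⟩ := ih (n + 1) (by omega)
        refine ⟨?_, h4⟩
        rw [show n + 1 + 1 = n + 2 by ring, Hf_add_two, h4, mul_zero, zero_sub, neg_eq_zero] at h5
        have h6 := (mul_eq_zero.mp h5).resolve_left (Nat.cast_add_one_ne_zero n)
        exact (mul_eq_zero.mp h6).resolve_left (pow_ne_zero _ hu0)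
    have := (hdown (e + 2) 0 (by omega)).1
    rw [Hf_zero] at this
    exact one_ne_zero this
  have hv0 : v = 0 := by
    have hz0 : ∀ n, Hf (0 : ℂ) v n = v ^ n := by
      intro n
      induction n using Nat.strong_induction_on with
      | _ n ih =>
        match n with
        | 0 => rw [Hf_zero, pow_zero]
        | 1 => rw [Hf_one, pow_one]
        | n + 2 =>
          rw [Hf_add_two, ih (n + 1) (by omega)]
          ring
    rw [hu0, hz0] at h2'
    exact pow_eq_zero_iff (by omega) |>.mp h2'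
  funext l
  rcases two_cases hij l with rfl | rfl
  · exact (mul_eq_zero.mp (hu.symm.trans hu0)).resolve_left hα
  · exact (mul_eq_zero.mp (hv.symm.trans hv0)).resolve_left hβ

end uniq

theorem Herm.isHomogeneous {d : ℕ} {f : MvPolynomial (Fin 2) ℂ} (h : Herm d f) :
    f.IsHomogeneous d := by
  obtain ⟨i, j, hij, α, β, c, hα, hβ, hc, rfl⟩ := h
  exact isHomogeneous_form d

theorem Herm.nondegenerate {d : ℕ} (hd : 4 ≤ d) {f : MvPolynomial (Fin 2) ℂ} (h : Herm d f) :
    Nondegenerate f := by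
  obtain ⟨i, j, hij, α, β, c, hα, hβ, hc, rfl⟩ := h
  obtain ⟨e, rfl⟩ : ∃ e, d = e + 4 := ⟨d - 4, by omega⟩
  exact nondegenerate_form hij hα hβ hc

theorem Herm.associated {d : ℕ} (hd : 4 ≤ d) {f : MvPolynomial (Fin 2) ℂ} (h : Herm d f) :
    ∃ F, Herm (2 * (d - 2)) F ∧ ∀ F', IsAssociated d f F' ↔ F' = F := by
  obtain ⟨i, j, hij, α, β, c, hα, hβ, hc, rfl⟩ := h
  obtain ⟨e, rfl⟩ : ∃ e, d = e + 4 := ⟨d - 4, by omega⟩
  obtain ⟨κ, hκ, hF⟩ := exists_associated hij hα hβ hc (e := e)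
  exact ⟨_, ⟨j, i, hij.symm, Complex.I * β⁻¹, α⁻¹, κ,
    mul_ne_zero Complex.I_ne_zero (inv_ne_zero hβ), inv_ne_zero hα, hκ, rfl⟩, hF⟩

theorem le_degSeq {d : ℕ} (hd : 4 ≤ d) (k : ℕ) : 4 ≤ degSeq 2 d k := by
  induction k with
  | zero => exact hd
  | succ k ih => rw [degSeq]; omega

/-- The sequence of iterated associated forms. -/
theorem exists_seq (d : ℕ) (hd : 4 ≤ d) : ∃ f : ℕ → MvPolynomial (Fin 2) ℂ, ∀ k,
    Herm (degSeq 2 d k) (f k) ∧
      ∀ F, IsAssociated (degSeq 2 d k) (f k) F ↔ F = f (k + 1) := by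
  classical
  have h0 : ∃ f0, Herm (degSeq 2 d 0) f0 :=
    ⟨_, 0, 1, by decide, 1, 1, 1, one_ne_zero, one_ne_zero, one_ne_zero, rfl⟩
  choose nxt hn1 hn2 using fun (k : ℕ) (f : MvPolynomial (Fin 2) ℂ)
    (h : Herm (degSeq 2 d k) f) => Herm.associated (le_degSeq hd k) h
  let s : (k : ℕ) → {f : MvPolynomial (Fin 2) ℂ // Herm (degSeq 2 d k) f} := fun k =>
    Nat.rec ⟨h0.choose, h0.choose_spec⟩ (fun k f => ⟨nxt k f.1 f.2, hn1 k f.1 f.2⟩) k
  exact ⟨fun k => (s k).1, fun k => ⟨(s k).2, hn2 k (s k).1 (s k).2⟩⟩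

end Pool.Agent.H22.AF
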