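import Pool.Agent.H22.AF.Defs

/-! Homogenised Hermite polynomials and the Gaussian functional. -/

set_option autoImplicit false

namespace Pool.Agent.H22.AF

open MvPolynomial

section general

variable {R : Type*} [CommRing R]

/-- Homogenised Hermite polynomials in any commutative ring. -/
def Hf (u v : R) : ℕ → R
  | 0 => 1
  | 1 => v
  | (n + 2) => v * Hf u v (n + 1) - (n + 1) * (u ^ 2 * Hf u v n)

theorem Hf_zero (u v : R) : Hf u v 0 = 1 := rfl
theorem Hf_one (u v : R) : Hf u v 1 = v := rfl
theorem Hf_add_two (u v : R) (n : ℕ) :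
    Hf u v (n + 2) = v * Hf u v (n + 1) - (n + 1) * (u ^ 2 * Hf u v n) := rfl

theorem map_Hf {S : Type*} [CommRing S] (φ : R →+* S) (u v : R) (n : ℕ) :
    φ (Hf u v n) = Hf (φ u) (φ v) n := by
  induction n using Nat.strong_induction_on with
  | _ n ih =>
    match n with
    | 0 => simp [Hf_zero]
    | 1 => simp [Hf_one]
    | n + 2 =>
      rw [Hf_add_two, Hf_add_two, map_sub, map_mul, map_mul, map_mul, map_pow,
        ih (n + 1) (by omega), ih n (by omega)]
      simp

end general

section deriv

variable {A R : Type*} [CommRing A] [CommRing R] [Algebra A R]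

theorem deriv_Hf_one (D : Derivation A R R) (u v : R) : D (Hf u v 1) = D v := rfl

theorem deriv_Hf (D : Derivation A R R) (u v : R) (n : ℕ) :
    D (Hf u v (n + 2)) = (n + 2) * (Hf u v (n + 1) * D v)
      - (n + 2) * (n + 1) * (u * Hf u v n * D u) := by
  induction n using Nat.strong_induction_on with
  | _ n ih =>
    have hc : ∀ m : ℕ, D ((m : R) + 1) = 0 := fun m => by
      rw [map_add, Derivation.map_natCast, Derivation.map_one_eq_zero, add_zero]
    match n with
    | 0 =>
      have e : Hf u v (0 + 2) = v * v - u ^ 2 := by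
        rw [Hf_add_two, Hf_zero, zero_add, Hf_one]; simp
      rw [e, zero_add, Hf_one, Hf_zero]
      simp only [map_sub, Derivation.leibniz, smul_eq_mul, Derivation.leibniz_pow, nsmul_eq_mul]
      push_cast
      ring
    | 1 =>
      have h1 := ih 0 (by omega)
      have e : Hf u v (1 + 2) = v * Hf u v (0 + 2) - 2 * (u ^ 2 * v) := by
        rw [Hf_add_two, show (1 + 1 : ℕ) = 0 + 2 by rfl, Hf_one]; push_cast; ring
      have h2 : D (2 : R) = 0 := by
        have := hc 1
        norm_num at this
        exact this
      have e2 : Hf u v (0 + 2) = v * v - u ^ 2 := by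
        rw [Hf_add_two, Hf_zero, zero_add, Hf_one]; simp
      rw [e]
      simp only [map_sub, Derivation.leibniz, smul_eq_mul, Derivation.leibniz_pow, nsmul_eq_mul,
        h1, h2]
      rw [show (1 + 1 : ℕ) = 0 + 2 by rfl, e2, zero_add, Hf_one, Hf_zero]
      push_cast
      ring
    | n + 2 =>
      have h1 := ih (n + 1) (by omega)
      have h2 := ih n (by omega)
      have e3 : Hf u v (n + 1 + 2) = v * Hf u v (n + 2) - (n + 2) * (u ^ 2 * Hf u v (n + 1)) := by
        rw [Hf_add_two]; push_cast; ring
      have e4 : Hf u v (n + 2 + 2) = v * Hf u v (n + 1 + 2) - (n + 3) * (u ^ 2 * Hf u v (n + 2)) := by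
        rw [Hf_add_two]; push_cast; ring
      have hc' := hc (n + 2)
      have hc3 : D ((n : R) + 3) = 0 := by
        rw [← hc']; congr 1; push_cast; ring
      rw [e4]
      simp only [map_sub, Derivation.leibniz, smul_eq_mul, Derivation.leibniz_pow, nsmul_eq_mul,
        h1, h2, hc3]
      rw [show n + 1 + 1 = n + 2 by rfl, show n + 2 + 1 = n + 1 + 2 by rfl, e3, Hf_add_two]
      push_cast
      ring

end deriv

/-! ### The Gaussian functional -/

section gauss

open Polynomial in
/-- Gaussian moments. -/
noncomputable def mom : ℕ → ℂ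
  | 0 => 1
  | 1 => 0
  | (n + 2) => (n + 1) * mom n

/-- The Gaussian functional on polynomials in one variable. -/
noncomputable def Gau : Polynomial ℂ →ₗ[ℂ] ℂ :=
  Polynomial.lsum fun n => mom n • LinearMap.id

theorem Gau_monomial (n : ℕ) (a : ℂ) : Gau (Polynomial.monomial n a) = mom n * a := by
  rw [Gau, Polynomial.lsum_apply, Polynomial.sum_monomial_index]
  · simp
  · simp

theorem Gau_C (a : ℂ) : Gau (Polynomial.C a) = a := by
  rw [← Polynomial.monomial_zero_left, Gau_monomial, mom, one_mul]

theorem Gau_one : Gau 1 = 1 := by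
  rw [← Polynomial.C_1, Gau_C]

theorem Gau_C_mul (a : ℂ) (p : Polynomial ℂ) : Gau (Polynomial.C a * p) = a * Gau p := by
  rw [← Polynomial.smul_eq_C_mul, map_smul, smul_eq_mul]

theorem Gau_X_mul (g : Polynomial ℂ) : Gau (Polynomial.X * g) = Gau (Polynomial.derivative g) := by
  induction g using Polynomial.induction_on' with
  | add p q hp hq => rw [mul_add, map_add, map_add, map_add, hp, hq]
  | monomial n a =>
    rw [Polynomial.X_mul_monomial, Polynomial.derivative_monomial, Gau_monomial, Gau_monomial]
    match n with
    | 0 => simp [mom]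
    | n + 1 =>
      rw [mom, Nat.add_sub_cancel]
      push_cast
      ring

/-- Hermite polynomials. -/
noncomputable abbrev He (n : ℕ) : Polynomial ℂ := Hf 1 Polynomial.X n

theorem derivative_He (n : ℕ) : Polynomial.derivative (He (n + 1)) = (n + 1) * He n := by
  match n with
  | 0 => simp [He, Hf_one, Hf_zero]
  | n + 1 =>
    have h := deriv_Hf (Polynomial.derivative' : Derivation ℂ (Polynomial ℂ) (Polynomial ℂ))
      1 Polynomial.X n
    have h1 : (Polynomial.derivative' : Derivation ℂ (Polynomial ℂ) (Polynomial ℂ)) (Polynomial.X)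
        = 1 := Polynomial.derivative_X
    have h2 : (Polynomial.derivative' : Derivation ℂ (Polynomial ℂ) (Polynomial ℂ)) 1 = 0 :=
      Polynomial.derivative_one
    rw [h1, h2] at h
    change Polynomial.derivative (Hf 1 Polynomial.X (n + 2)) = _
    change Polynomial.derivative (Hf 1 Polynomial.X (n + 2)) = _ at h
    rw [h]
    push_cast
    ring

theorem Gau_He_succ_mul (n : ℕ) (g : Polynomial ℂ) :
    Gau (He (n + 1) * g) = Gau (He n * Polynomial.derivative g) := by
  match n with
  | 0 =>
    have : He (0 + 1) * g = Polynomial.X * g := by rw [zero_add]; rfl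
    rw [this, Gau_X_mul]
    simp [He, Hf_zero]
  | n + 1 =>
    have h1 : He (n + 1 + 1) * g = Polynomial.X * (He (n + 1) * g)
        - Polynomial.derivative (He (n + 1)) * g := by
      rw [derivative_He]
      change Hf 1 Polynomial.X (n + 2) * g = _
      rw [Hf_add_two]
      ring
    rw [h1, map_sub, Gau_X_mul, Polynomial.derivative_mul, map_add]
    ring

theorem Gau_He_mul_of_natDegree_lt (n : ℕ) :
    ∀ g : Polynomial ℂ, g.natDegree < n → Gau (He n * g) = 0 := by
  induction n with
  | zero => intro g hg; omega
  | succ n ih =>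
    intro g hg
    rw [Gau_He_succ_mul]
    rcases Nat.eq_zero_or_pos n with rfl | hn
    · have : g.natDegree = 0 := by omega
      rw [Polynomial.natDegree_eq_zero] at this
      obtain ⟨a, rfl⟩ := this
      simp
    · apply ih
      have := Polynomial.natDegree_derivative_le g
      omega

theorem Gau_He_mul_self (n : ℕ) : Gau (He n * He n) = (n.factorial : ℂ) := by
  induction n with
  | zero => simp [He, Hf_zero, Gau_one]
  | succ n ih =>
    rw [Gau_He_succ_mul, derivative_He]
    have : He n * (((n : Polynomial ℂ) + 1) * He n) = Polynomial.C ((n : ℂ) + 1) * (He n * He n) := by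
      rw [map_add, Polynomial.C_1, Polynomial.C_eq_natCast]
      ring
    rw [this, Gau_C_mul, ih, Nat.factorial_succ]
    push_cast
    ring

theorem natDegree_He_le (n : ℕ) : (He n).natDegree ≤ n := by
  induction n using Nat.strong_induction_on with
  | _ n ih =>
    match n with
    | 0 => simp [He, Hf_zero]
    | 1 => simp [He, Hf_one]
    | n + 2 =>
      change (Hf 1 Polynomial.X (n + 2)).natDegree ≤ n + 2
      rw [Hf_add_two]
      refine (Polynomial.natDegree_sub_le _ _).trans (max_le ?_ ?_)
      · refine Polynomial.natDegree_mul_le.trans ?_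
        have h1 : (Hf 1 Polynomial.X (n + 1) : Polynomial ℂ).natDegree ≤ n + 1 :=
          ih (n + 1) (by omega)
        have := Polynomial.natDegree_X_le (R := ℂ)
        omega
      · refine Polynomial.natDegree_mul_le.trans ?_
        have h1 : (Hf 1 Polynomial.X n : Polynomial ℂ).natDegree ≤ n := ih n (by omega)
        have h2 : ((n : Polynomial ℂ) + 1).natDegree = 0 := by
          have : ((n : Polynomial ℂ) + 1) = Polynomial.C ((n : ℂ) + 1) := by simp
          rw [this, Polynomial.natDegree_C]
        rw [h2, one_pow, one_mul]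
        omega

theorem Gau_He_succ (n : ℕ) : Gau (He (n + 1)) = 0 := by
  have := Gau_He_mul_of_natDegree_lt (n + 1) 1 (by simp)
  rwa [mul_one] at this

theorem Gau_He_mul_He (n : ℕ) : Gau (He n * He (n + 2)) = 0 := by
  rw [mul_comm]
  exact Gau_He_mul_of_natDegree_lt _ _ (lt_of_le_of_lt (natDegree_He_le n) (by omega))

/-- Moments of `a + b X`. -/
theorem Gau_pow (a b : ℂ) (n : ℕ) :
    Gau ((Polynomial.C a + Polynomial.C b * Polynomial.X) ^ n) = Hf (Complex.I * b) a n := by
  induction n using Nat.strong_induction_on with
  | _ n ih =>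
    match n with
    | 0 => simp [Hf_zero, Gau_one]
    | 1 =>
      have h := Gau_X_mul 1
      rw [mul_one, Polynomial.derivative_one, map_zero] at h
      rw [pow_one, map_add, Gau_C, Gau_C_mul, h, Hf_one, mul_zero, add_zero]
    | n + 2 =>
      set L : Polynomial ℂ := Polynomial.C a + Polynomial.C b * Polynomial.X with hL
      have hd : Polynomial.derivative L = Polynomial.C b := by
        rw [hL]; simp
      have e : L ^ (n + 2) = Polynomial.C a * L ^ (n + 1)
          + Polynomial.C b * (Polynomial.X * L ^ (n + 1)) := by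
        rw [pow_succ' L (n + 1)]
        nth_rewrite 1 [hL]
        ring
      have hd2 : Polynomial.derivative (L ^ (n + 1)) = Polynomial.C ((n + 1) * b) * L ^ n := by
        rw [Polynomial.derivative_pow, hd, Nat.add_sub_cancel]
        simp
        ring
      rw [e, map_add, Gau_C_mul, Gau_C_mul, Gau_X_mul, hd2, Gau_C_mul, ih (n + 1) (by omega),
        ih n (by omega), Hf_add_two, mul_pow, Complex.I_sq]
      ring

end gauss

end Pool.Agent.H22.AF
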