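import Pool.Agent.H22.AF.Herm

/-! The associated form of a Hermite form is again a Hermite form. -/

set_option autoImplicit false

namespace Pool.Agent.H22.AF

open MvPolynomial

local instance : Fact (0 < 2) := ⟨by norm_num⟩

/-! ### Homogeneity -/

theorem isHomogeneous_Hf {n : ℕ} {U V : MvPolynomial (Fin n) ℂ} (hU : U.IsHomogeneous 1)
    (hV : V.IsHomogeneous 1) (k : ℕ) : (Hf U V k).IsHomogeneous k := by
  induction k using Nat.strong_induction_on with
  | _ k ih =>
    match k with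
    | 0 => rw [Hf_zero]; exact isHomogeneous_one _ _
    | 1 => rw [Hf_one]; exact hV
    | k + 2 =>
      rw [Hf_add_two]
      have h1 : (V * Hf U V (k + 1)).IsHomogeneous (1 + (k + 1)) := hV.mul (ih (k + 1) (by omega))
      have h2 : (U ^ 2 * Hf U V k).IsHomogeneous (1 * 2 + k) := (hU.pow 2).mul (ih k (by omega))
      have h3 : (((k : MvPolynomial (Fin n) ℂ) + 1) * (U ^ 2 * Hf U V k)).IsHomogeneous (k + 2) := by
        have : ((k : MvPolynomial (Fin n) ℂ) + 1) = C ((k : ℂ) + 1) := by simp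
        rw [this]
        have h4 := h2.C_mul ((k : ℂ) + 1)
        rwa [show 1 * 2 + k = k + 2 by ring] at h4
      rw [show 1 + (k + 1) = k + 2 by ring] at h1
      exact h1.sub h3

/-- The two variables of a Hermite form. -/
structure Vars (U V : MvPolynomial (Fin 2) ℂ) : Prop where
  hU : U.IsHomogeneous 1
  hV : V.IsHomogeneous 1
  span : ∀ l : Fin 2, ∃ a b : ℂ, (X l : MvPolynomial (Fin 2) ℂ) = C a * U + C b * V

/-- Elements `P * H_N + Q * (U * H_(N-1))` with `P`, `Q` forms of degree `r`; here `N = e + 3`. -/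
def T (U V : MvPolynomial (Fin 2) ℂ) (e r : ℕ) : Set (MvPolynomial (Fin 2) ℂ) :=
  {g | ∃ P Q : MvPolynomial (Fin 2) ℂ, P.IsHomogeneous r ∧ Q.IsHomogeneous r ∧
    g = P * Hf U V (e + 3) + Q * (U * Hf U V (e + 2))}

section T

variable {U V : MvPolynomial (Fin 2) ℂ} (hU : U.IsHomogeneous 1) (hV : V.IsHomogeneous 1)
  {e r : ℕ} {g g' : MvPolynomial (Fin 2) ℂ}

theorem T_add (hg : g ∈ T U V e r) (hg' : g' ∈ T U V e r) : g + g' ∈ T U V e r := by
  obtain ⟨P, Q, hP, hQ, rfl⟩ := hg
  obtain ⟨P', Q', hP', hQ', rfl⟩ := hg'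
  exact ⟨P + P', Q + Q', hP.add hP', hQ.add hQ', by ring⟩

theorem T_C_mul (a : ℂ) (hg : g ∈ T U V e r) : C a * g ∈ T U V e r := by
  obtain ⟨P, Q, hP, hQ, rfl⟩ := hg
  exact ⟨C a * P, C a * Q, hP.C_mul a, hQ.C_mul a, by ring⟩

theorem T_mul_of {m : ℕ} {W : MvPolynomial (Fin 2) ℂ} (hW : W.IsHomogeneous m)
    (hg : g ∈ T U V e r) : W * g ∈ T U V e (r + m) := by
  obtain ⟨P, Q, hP, hQ, rfl⟩ := hg
  refine ⟨W * P, W * Q, ?_, ?_, by ring⟩
  · rw [add_comm]; exact hW.mul hP
  · rw [add_comm]; exact hW.mul hQ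

include hU hV in
theorem T_up (k : ℕ) : Hf U V (e + 3 + k) ∈ T U V e k := by
  induction k using Nat.strong_induction_on with
  | _ k ih =>
    match k with
    | 0 => exact ⟨1, 0, isHomogeneous_one _ _, isHomogeneous_zero _ _ _, by simp⟩
    | 1 =>
      refine ⟨V, C (-((e + 3 : ℕ) : ℂ)) * U, hV, hU.C_mul _, ?_⟩
      rw [show e + 3 + 1 = e + 2 + 2 by ring, Hf_add_two, map_neg, map_natCast]
      push_cast
      ring
    | k + 2 =>
      have h1 := T_mul_of hV (ih (k + 1) (by omega))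
      have h2 := T_C_mul (-((e + 3 + k + 1 : ℕ) : ℂ)) (T_mul_of (hU.pow 2) (ih k (by omega)))
      rw [show k + 1 + 1 = k + 2 by ring] at h1
      rw [show k + 1 * 2 = k + 2 by ring] at h2
      have h3 := T_add h1 h2
      have e1 : Hf U V (e + 3 + (k + 2)) = V * Hf U V (e + 3 + (k + 1))
          + C (-((e + 3 + k + 1 : ℕ) : ℂ)) * (U ^ 2 * Hf U V (e + 3 + k)) := by
        rw [show e + 3 + (k + 2) = e + 3 + k + 2 by ring, Hf_add_two,
          show e + 3 + (k + 1) = e + 3 + k + 1 by ring, map_neg, map_natCast]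
        push_cast
        ring
      rw [e1]
      exact h3

include hU hV in
theorem T_down (k : ℕ) : ∀ n, n + k = e + 2 → U ^ (2 * k + 1) * Hf U V n ∈ T U V e k := by
  induction k using Nat.strong_induction_on with
  | _ k ih =>
    match k with
    | 0 =>
      intro n hn
      obtain rfl : n = e + 2 := by omega
      exact ⟨0, 1, isHomogeneous_zero _ _ _, isHomogeneous_one _ _, by simp⟩
    | 1 =>
      intro n hn
      obtain rfl : n = e + 1 := by omega
      refine ⟨C (-((e : ℂ) + 2)⁻¹) * U, C (((e : ℂ) + 2)⁻¹) * V, hU.C_mul _, hV.C_mul _, ?_⟩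
      have hne : ((e : ℂ) + 2) ≠ 0 := by
        have : ((e + 2 : ℕ) : ℂ) ≠ 0 := Nat.cast_ne_zero.mpr (by omega)
        push_cast at this
        exact this
      have hC : (C (((e : ℂ) + 2)⁻¹) : MvPolynomial (Fin 2) ℂ) * (e + 2) = 1 := by
        have : ((e : MvPolynomial (Fin 2) ℂ) + 2) = C ((e : ℂ) + 2) := by
          have h := (map_natCast (C : ℂ →+* MvPolynomial (Fin 2) ℂ) (e + 2)).symm
          push_cast at h
          exact h
        rw [this, ← map_mul, inv_mul_cancel₀ hne, map_one]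
      have h3 : Hf U V (e + 3) = V * Hf U V (e + 2) - (e + 2) * (U ^ 2 * Hf U V (e + 1)) := by
        rw [show e + 3 = e + 1 + 2 by ring, Hf_add_two, show e + 1 + 1 = e + 2 by ring]
        push_cast
        ring
      rw [h3, map_neg]
      linear_combination (-U ^ 3 * Hf U V (e + 1)) * hC
    | k + 2 =>
      intro n hn
      have hn1 := ih (k + 1) (by omega) (n + 1) (by omega)
      have hn2 := ih k (by omega) (n + 2) (by omega)
      have h1 := T_C_mul (((n : ℂ) + 1)⁻¹) (T_mul_of hV hn1)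
      have h2 := T_C_mul (-((n : ℂ) + 1)⁻¹) (T_mul_of (hU.pow 2) hn2)
      rw [show k + 1 + 1 = k + 2 by ring] at h1
      rw [show k + 1 * 2 = k + 2 by ring] at h2
      have h3 := T_add h1 h2
      have hne : ((n : ℂ) + 1) ≠ 0 := Nat.cast_add_one_ne_zero n
      have hC : (C (((n : ℂ) + 1)⁻¹) : MvPolynomial (Fin 2) ℂ) * (n + 1) = 1 := by
        have : ((n : MvPolynomial (Fin 2) ℂ) + 1) = C ((n : ℂ) + 1) := by simp
        rw [this, ← map_mul, inv_mul_cancel₀ hne, map_one]
      have e1 : U ^ (2 * (k + 2) + 1) * Hf U V n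
          = C (((n : ℂ) + 1)⁻¹) * (V * (U ^ (2 * (k + 1) + 1) * Hf U V (n + 1)))
          + C (-((n : ℂ) + 1)⁻¹) * (U ^ 2 * (U ^ (2 * k + 1) * Hf U V (n + 2))) := by
        rw [Hf_add_two, map_neg]
        linear_combination (-U ^ (2 * (k + 2) + 1) * Hf U V n) * hC
      rw [e1]
      exact h3

include hU hV in
/-- All `U^(D-n) H_n`, `1 ≤ n ≤ D = 2 e + 4`, lie in the degree `D` part of the ideal. -/
theorem T_all (n m : ℕ) (hn : 1 ≤ n) (hnm : n + m = 2 * e + 4) :
    U ^ m * Hf U V n ∈ T U V e (e + 1) := by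
  rcases Nat.lt_or_ge n (e + 3) with h | h
  · obtain ⟨k, hk⟩ : ∃ k, n + k = e + 2 := ⟨e + 2 - n, by omega⟩
    have h1 := T_mul_of (hU.pow (n - 1)) (T_down hU hV k n hk)
    have e1 : U ^ (n - 1) * (U ^ (2 * k + 1) * Hf U V n) = U ^ m * Hf U V n := by
      rw [← mul_assoc, ← pow_add]
      congr 2
      omega
    rw [e1] at h1
    rwa [show k + 1 * (n - 1) = e + 1 by omega] at h1
  · obtain ⟨k, rfl⟩ : ∃ k, n = e + 3 + k := ⟨n - (e + 3), by omega⟩
    have h1 := T_mul_of (hU.pow m) (T_up hU hV (e := e) k)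
    rwa [show k + 1 * m = e + 1 by omega] at h1

end T

/-! ### The span of the `U^(D-n) H_n` -/

theorem mem_span_of_homogeneous {U V : MvPolynomial (Fin 2) ℂ} (h : Vars U V) (D : ℕ)
    (g : MvPolynomial (Fin 2) ℂ) (hg : g.IsHomogeneous D) :
    g ∈ Submodule.span ℂ {p | ∃ n m : ℕ, n + m = D ∧ p = U ^ m * Hf U V n} := by
  set S : ℕ → Submodule ℂ (MvPolynomial (Fin 2) ℂ) := fun D =>
    Submodule.span ℂ {p | ∃ n m : ℕ, n + m = D ∧ p = U ^ m * Hf U V n} with hS
  have hmulU : ∀ D p, p ∈ S D → U * p ∈ S (D + 1) := by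
    intro D p hp
    induction hp using Submodule.span_induction with
    | mem x hx =>
      obtain ⟨n, m, hnm, rfl⟩ := hx
      exact Submodule.subset_span ⟨n, m + 1, by omega, by ring⟩
    | zero => rw [mul_zero]; exact Submodule.zero_mem _
    | add x y _ _ hx hy => rw [mul_add]; exact Submodule.add_mem _ hx hy
    | smul a x _ hx => rw [mul_smul_comm]; exact Submodule.smul_mem _ _ hx
  have hmulV : ∀ D p, p ∈ S D → V * p ∈ S (D + 1) := by
    intro D p hp
    induction hp using Submodule.span_induction with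
    | mem x hx =>
      obtain ⟨n, m, hnm, rfl⟩ := hx
      rcases n with _ | n
      · refine Submodule.subset_span ⟨1, m, by omega, ?_⟩
        rw [Hf_zero, Hf_one]; ring
      · have e1 : V * (U ^ m * Hf U V (n + 1)) = U ^ m * Hf U V (n + 2)
            + ((n : ℂ) + 1) • (U ^ (m + 2) * Hf U V n) := by
          rw [Hf_add_two, smul_eq_C_mul, map_add, map_natCast, map_one]
          ring
        rw [e1]
        refine Submodule.add_mem _ (Submodule.subset_span ⟨n + 2, m, by omega, rfl⟩)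
          (Submodule.smul_mem _ _ (Submodule.subset_span ⟨n, m + 2, by omega, rfl⟩))
    | zero => rw [mul_zero]; exact Submodule.zero_mem _
    | add x y _ _ hx hy => rw [mul_add]; exact Submodule.add_mem _ hx hy
    | smul a x _ hx => rw [mul_smul_comm]; exact Submodule.smul_mem _ _ hx
  have hX : ∀ (l : Fin 2) D p, p ∈ S D → X l * p ∈ S (D + 1) := by
    intro l D p hp
    obtain ⟨a, b, hab⟩ := h.span l
    rw [hab, add_mul, mul_assoc, mul_assoc, ← smul_eq_C_mul, ← smul_eq_C_mul]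
    exact Submodule.add_mem _ (Submodule.smul_mem _ _ (hmulU D p hp))
      (Submodule.smul_mem _ _ (hmulV D p hp))
  have hpow : ∀ (l : Fin 2) k D p, p ∈ S D → X l ^ k * p ∈ S (D + k) := by
    intro l k
    induction k with
    | zero => intro D p hp; simpa using hp
    | succ k ih =>
      intro D p hp
      have := hX l _ _ (ih D p hp)
      rw [pow_succ', mul_assoc]
      exact this
  rw [as_sum g]
  refine Submodule.sum_mem _ fun s hs => ?_
  have hdeg : s 0 + s 1 = D := by
    have := hg (mem_support_iff.mp hs)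
    rw [← this]
    simp [Finsupp.weight_apply, Finsupp.sum_fintype, Fin.sum_univ_two]
  rw [monomial_eq, ← smul_eq_C_mul]
  refine Submodule.smul_mem _ _ ?_
  rw [Finsupp.prod_fintype _ _ (by simp), Fin.prod_univ_two]
  have h1 : (1 : MvPolynomial (Fin 2) ℂ) ∈ S 0 :=
    Submodule.subset_span ⟨0, 0, rfl, by simp [Hf_zero]⟩
  have h2 := hpow 0 (s 0) _ _ (hpow 1 (s 1) 0 1 h1)
  rw [mul_one, zero_add, add_comm, hdeg] at h2
  exact h2

end Pool.Agent.H22.AF
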