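import Pool.Agent.H22.AF.Main

/-! The associated form of a Hermite form is again a Hermite form, conclusion. -/

set_option autoImplicit false

namespace Pool.Agent.H22.AF

open MvPolynomial

section ideal

attribute [local instance] MvPolynomial.gradedAlgebra

theorem homogeneousComponent_mul_of {n : ℕ} {q : MvPolynomial (Fin n) ℂ} {m : ℕ}
    (hq : q.IsHomogeneous m) (h : MvPolynomial (Fin n) ℂ) (r : ℕ) :
    homogeneousComponent (r + m) (h * q) = homogeneousComponent r h * q := by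
  have h1 := DirectSum.coe_decompose_mul_of_right_mem_of_le (homogeneousSubmodule (Fin n) ℂ)
    (a := h) (b := q) (n := r + m) (i := m) hq (by omega)
  have h2 := decomposition.decompose'_apply (h * q) (r + m)
  have h3 := decomposition.decompose'_apply h (r + m - m)
  have h4 : (DirectSum.decompose (homogeneousSubmodule (Fin n) ℂ) (h * q) (r + m) :
    MvPolynomial (Fin n) ℂ) = homogeneousComponent (r + m) (h * q) := h2
  have h5 : (DirectSum.decompose (homogeneousSubmodule (Fin n) ℂ) h (r + m - m) :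
    MvPolynomial (Fin n) ℂ) = homogeneousComponent (r + m - m) h := h3
  rw [h4, h5, Nat.add_sub_cancel] at h1
  exact h1

/-- A form of degree `r + m` in the ideal generated by forms of degree `m`. -/
theorem exists_of_mem_jacobianIdeal {n : ℕ} {f g : MvPolynomial (Fin n) ℂ} {r m : ℕ}
    (hf : ∀ l, (pderiv l f).IsHomogeneous m) (hg : g ∈ jacobianIdeal f)
    (hg' : g.IsHomogeneous (r + m)) :
    ∃ h : Fin n → MvPolynomial (Fin n) ℂ, (∀ l, (h l).IsHomogeneous r) ∧
      g = ∑ l, h l * pderiv l f := by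
  rw [jacobianIdeal, Ideal.mem_span_range_iff_exists_fun] at hg
  obtain ⟨c, hc⟩ := hg
  refine ⟨fun l => homogeneousComponent r (c l), fun l => homogeneousComponent_isHomogeneous _ _,
    ?_⟩
  have h1 : homogeneousComponent (r + m) g = g := by
    rw [homogeneousComponent_of_mem ((mem_homogeneousSubmodule _ _).mpr hg'), if_pos rfl]
  rw [← h1, ← hc, map_sum]
  exact Finset.sum_congr rfl fun l _ => homogeneousComponent_mul_of (hf l) _ _

end ideal

/-- Hermite forms of degree `d` in suitable coordinates. -/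
def Herm (d : ℕ) (f : MvPolynomial (Fin 2) ℂ) : Prop :=
  ∃ i j : Fin 2, i ≠ j ∧ ∃ α β c : ℂ, α ≠ 0 ∧ β ≠ 0 ∧ c ≠ 0 ∧
    f = C c * Hf (C α * X i) (C β * X j) d

section step

variable {i j : Fin 2} (hij : i ≠ j) {α β c : ℂ} (hα : α ≠ 0) (hβ : β ≠ 0) (hc : c ≠ 0)

include hij in
theorem two_cases (l : Fin 2) : l = i ∨ l = j := by omega

include hij hα hβ in
theorem vars : Vars (C α * X i) (C β * X j) where
  hU := isHomogeneous_C_mul_X _ _
  hV := isHomogeneous_C_mul_X _ _
  span := by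
    intro l
    rcases two_cases hij l with rfl | rfl
    · refine ⟨α⁻¹, 0, ?_⟩
      rw [← mul_assoc, ← C_mul, inv_mul_cancel₀ hα]; simp
    · refine ⟨0, β⁻¹, ?_⟩
      rw [← mul_assoc (C β⁻¹), ← C_mul, inv_mul_cancel₀ hβ]; simp

theorem isHomogeneous_form (d : ℕ) :
    (C c * Hf (C α * X i) (C β * X j) d : MvPolynomial (Fin 2) ℂ).IsHomogeneous d :=
  (isHomogeneous_Hf (isHomogeneous_C_mul_X _ _) (isHomogeneous_C_mul_X _ _) d).C_mul c

include hij in
theorem pderiv_j (n : ℕ) : pderiv j (Hf (C α * X i) (C β * X j) (n + 1) : MvPolynomial (Fin 2) ℂ)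
    = C ((n + 1) * β) * Hf (C α * X i) (C β * X j) n := by
  have h1 : pderiv j (C α * X i : MvPolynomial (Fin 2) ℂ) = 0 := by
    rw [pderiv_C_mul, pderiv_X_of_ne hij, mul_zero]
  have h2 : pderiv j (C β * X j : MvPolynomial (Fin 2) ℂ) = C β := by
    rw [pderiv_C_mul, pderiv_X_self, mul_one]
  match n with
  | 0 => rw [zero_add, Hf_one, h2, Hf_zero]; simp
  | n + 1 =>
    rw [deriv_Hf, h1, h2]
    simp only [map_mul, map_add, map_natCast, map_one]
    push_cast
    ring

include hij in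
theorem pderiv_i (n : ℕ) : pderiv i (Hf (C α * X i) (C β * X j) (n + 2) : MvPolynomial (Fin 2) ℂ)
    = C (-((n + 2) * (n + 1) * α)) * ((C α * X i) * Hf (C α * X i) (C β * X j) n) := by
  have h1 : pderiv i (C α * X i : MvPolynomial (Fin 2) ℂ) = C α := by
    rw [pderiv_C_mul, pderiv_X_self, mul_one]
  have h2 : pderiv i (C β * X j : MvPolynomial (Fin 2) ℂ) = 0 := by
    rw [pderiv_C_mul, pderiv_X_of_ne hij.symm, mul_zero]
  rw [deriv_Hf, h1, h2]
  have h3 : (C 2 : MvPolynomial (Fin 2) ℂ) = 2 := map_ofNat C 2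
  simp only [map_mul, map_add, map_natCast, map_one, map_neg, h3]
  ring

end step

/-! ### The functional -/

/-- Restriction to the line on which the first variable is one. -/
noncomputable def psi (i : Fin 2) (α β : ℂ) : MvPolynomial (Fin 2) ℂ →ₐ[ℂ] Polynomial ℂ :=
  aeval fun l => if l = i then Polynomial.C α⁻¹ else Polynomial.C β⁻¹ * Polynomial.X

/-- The Gaussian functional on forms. -/
noncomputable def om (i : Fin 2) (α β : ℂ) : MvPolynomial (Fin 2) ℂ →ₗ[ℂ] ℂ :=
  Gau ∘ₗ (psi i α β).toLinearMap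

theorem om_apply (i : Fin 2) (α β : ℂ) (p : MvPolynomial (Fin 2) ℂ) :
    om i α β p = Gau (psi i α β p) := rfl

theorem psi_C (i : Fin 2) (α β a : ℂ) : psi i α β (C a) = Polynomial.C a := by
  rw [psi, ← algebraMap_eq, AlgHom.commutes]; rfl

theorem natDegree_psi_le (i : Fin 2) (α β : ℂ) {p : MvPolynomial (Fin 2) ℂ} {r : ℕ}
    (hp : p.IsHomogeneous r) : (psi i α β p).natDegree ≤ r := by
  have h := aeval_natDegree_le (m := r) (n := 1) p hp.totalDegree_le
    (fun l => if l = i then Polynomial.C α⁻¹ else Polynomial.C β⁻¹ * Polynomial.X) (by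
      intro l
      split_ifs
      · simp
      · refine Polynomial.natDegree_mul_le.trans ?_
        have := Polynomial.natDegree_X_le (R := ℂ)
        rw [Polynomial.natDegree_C]
        omega)
  rwa [mul_one] at h

section step2

variable {i j : Fin 2} (hij : i ≠ j) {α β c : ℂ} (hα : α ≠ 0) (hβ : β ≠ 0) (hc : c ≠ 0)

include hα in
theorem psi_U : psi i α β (C α * X i) = 1 := by
  rw [map_mul, psi_C, psi, aeval_X, if_pos rfl, ← Polynomial.C_mul, mul_inv_cancel₀ hα,
    Polynomial.C_1]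

include hij hβ in
theorem psi_V : psi i α β (C β * X j) = Polynomial.X := by
  rw [map_mul, psi_C, psi, aeval_X, if_neg hij.symm, ← mul_assoc, ← Polynomial.C_mul,
    mul_inv_cancel₀ hβ, Polynomial.C_1, one_mul]

include hij hα hβ in
theorem psi_Hf (n : ℕ) : psi i α β (Hf (C α * X i) (C β * X j) n) = He n := by
  have := map_Hf (psi i α β).toRingHom (C α * X i) (C β * X j) n
  change psi i α β _ = Hf (psi i α β _) (psi i α β _) n at this
  rw [this, psi_U hα, psi_V hij hβ]

variable {e : ℕ}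

include hij in
theorem deriv_j_form : pderiv j (C c * Hf (C α * X i) (C β * X j) (e + 4) :
      MvPolynomial (Fin 2) ℂ) = C (c * (((e + 3 : ℕ) : ℂ) + 1) * β) *
        Hf (C α * X i) (C β * X j) (e + 3) := by
  rw [pderiv_C_mul, pderiv_j hij (e + 3), ← mul_assoc, ← C_mul]
  congr 2
  push_cast
  ring

include hij in
theorem deriv_i_form : pderiv i (C c * Hf (C α * X i) (C β * X j) (e + 4) :
      MvPolynomial (Fin 2) ℂ) = C (-(c * (((e + 2 : ℕ) : ℂ) + 2) * (((e + 2 : ℕ) : ℂ) + 1) * α)) *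
        ((C α * X i) * Hf (C α * X i) (C β * X j) (e + 2)) := by
  rw [pderiv_C_mul, pderiv_i hij (e + 2), ← mul_assoc, ← C_mul]
  congr 2
  push_cast
  ring

theorem cast_ne (a b : ℕ) (hb : b ≠ 0) : ((a : ℂ) + b) ≠ 0 := by
  rw [← Nat.cast_add]
  exact Nat.cast_ne_zero.mpr (by omega)

include hij hα hβ in
/-- The Gaussian functional kills the Jacobian ideal in degree `2 e + 4`. -/
theorem om_kills (g : MvPolynomial (Fin 2) ℂ)
    (hg : g ∈ jacobianIdeal (C c * Hf (C α * X i) (C β * X j) (e + 4)))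
    (hg' : g.IsHomogeneous (2 * (e + 4 - 2))) : om i α β g = 0 := by
  have hhom : ∀ l, (pderiv l (C c * Hf (C α * X i) (C β * X j) (e + 4) :
      MvPolynomial (Fin 2) ℂ)).IsHomogeneous (e + 3) := by
    intro l
    rcases two_cases hij l with rfl | rfl
    · rw [deriv_i_form hij]
      have h := (isHomogeneous_C_mul_X α l).mul
        (isHomogeneous_Hf (isHomogeneous_C_mul_X α l) (isHomogeneous_C_mul_X β j) (e + 2))
      rw [show 1 + (e + 2) = e + 3 by ring] at h
      exact h.C_mul _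
    · rw [deriv_j_form hij]
      exact (isHomogeneous_Hf (isHomogeneous_C_mul_X α i) (isHomogeneous_C_mul_X β l)
        (e + 3)).C_mul _
  rw [show 2 * (e + 4 - 2) = e + 1 + (e + 3) by omega] at hg'
  obtain ⟨h, hh, rfl⟩ := exists_of_mem_jacobianIdeal hhom hg hg'
  rw [map_sum]
  refine Finset.sum_eq_zero fun l _ => ?_
  have hdeg := natDegree_psi_le i α β (hh l)
  rcases two_cases hij l with rfl | rfl
  · rw [deriv_i_form hij, om_apply, map_mul (psi l α β), map_mul (psi l α β), psi_C,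
      map_mul (psi l α β), psi_U hα, psi_Hf hij hα hβ, one_mul]
    have := Gau_He_mul_of_natDegree_lt (e + 2) (psi l α β (h l)) (by omega)
    rw [show psi l α β (h l) * (Polynomial.C
      (-(c * (((e + 2 : ℕ) : ℂ) + 2) * (((e + 2 : ℕ) : ℂ) + 1) * α)) * He (e + 2)) =
      Polynomial.C (-(c * (((e + 2 : ℕ) : ℂ) + 2) * (((e + 2 : ℕ) : ℂ) + 1) * α)) *
        (He (e + 2) * psi l α β (h l)) by ring, Gau_C_mul, this, mul_zero]
  · rw [deriv_j_form hij, om_apply, map_mul (psi i α β), map_mul (psi i α β), psi_C,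
      psi_Hf hij hα hβ]
    have := Gau_He_mul_of_natDegree_lt (e + 3) (psi i α β (h l)) (by omega)
    rw [show psi i α β (h l) * (Polynomial.C (c * (((e + 3 : ℕ) : ℂ) + 1) * β) * He (e + 3)) =
      Polynomial.C (c * (((e + 3 : ℕ) : ℂ) + 1) * β) * (He (e + 3) * psi i α β (h l)) by ring,
      Gau_C_mul, this, mul_zero]

theorem hess_two (f : MvPolynomial (Fin 2) ℂ) (hij : i ≠ j) :
    hess f = pderiv i (pderiv i f) * pderiv j (pderiv j f)
      - pderiv i (pderiv j f) * pderiv j (pderiv i f) := by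
  rw [hess, Matrix.det_fin_two]
  simp only [Matrix.of_apply]
  rcases two_cases hij 0 with h | h
  · have hj : j = 1 := by omega
    subst hj; rw [← h]
  · have hi : i = 1 := by omega
    subst hi; rw [← h]
    ring

include hij hα hβ hc in
/-- The Gaussian functional does not kill the Hessian. -/
theorem om_hess : om i α β (hess (C c * Hf (C α * X i) (C β * X j) (e + 4))) ≠ 0 := by
  have hi := deriv_i_form hij (α := α) (β := β) (c := c) (e := e)
  have hj := deriv_j_form hij (α := α) (β := β) (c := c) (e := e)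
  set U : MvPolynomial (Fin 2) ℂ := C α * X i with hU
  set V : MvPolynomial (Fin 2) ℂ := C β * X j with hV
  set A : ℂ := c * (((e + 3 : ℕ) : ℂ) + 1) * β with hA
  set B : ℂ := -(c * (((e + 2 : ℕ) : ℂ) + 2) * (((e + 2 : ℕ) : ℂ) + 1) * α) with hB
  have jj : pderiv j (pderiv j (C c * Hf U V (e + 4))) =
      C A * (C ((((e + 2 : ℕ) : ℂ) + 1) * β) * Hf U V (e + 2)) := by
    rw [hj, pderiv_C_mul, pderiv_j hij (e + 2)]
  have ij : pderiv i (pderiv j (C c * Hf U V (e + 4))) =
      C A * (C (-((((e + 1 : ℕ) : ℂ) + 2) * (((e + 1 : ℕ) : ℂ) + 1) * α)) *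
        (U * Hf U V (e + 1))) := by
    rw [hj, pderiv_C_mul, pderiv_i hij (e + 1)]
  have hjU : pderiv j U = 0 := by
    rw [hU, pderiv_C_mul, pderiv_X_of_ne hij, mul_zero]
  have hiU : pderiv i U = C α := by
    rw [hU, pderiv_C_mul, pderiv_X_self, mul_one]
  have ji : pderiv j (pderiv i (C c * Hf U V (e + 4))) =
      C B * (U * (C ((((e + 1 : ℕ) : ℂ) + 1) * β) * Hf U V (e + 1))) := by
    rw [hi, pderiv_C_mul, Derivation.leibniz, hjU, pderiv_j hij (e + 1), smul_zero, add_zero,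
      smul_eq_mul]
  have ii : pderiv i (pderiv i (C c * Hf U V (e + 4))) =
      C B * (U * (C (-(((e : ℂ) + 2) * ((e : ℂ) + 1) * α)) * (U * Hf U V e))
        + Hf U V (e + 2) * C α) := by
    rw [hi, pderiv_C_mul, Derivation.leibniz, hiU, pderiv_i hij e, smul_eq_mul, smul_eq_mul]
  rw [hess_two _ hij, ii, jj, ij, ji, om_apply]
  have e1 : psi i α β (C B * (U * (C (-(((e : ℂ) + 2) * ((e : ℂ) + 1) * α)) * (U * Hf U V e))
        + Hf U V (e + 2) * C α) * (C A * (C ((((e + 2 : ℕ) : ℂ) + 1) * β) * Hf U V (e + 2)))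
      - C A * (C (-((((e + 1 : ℕ) : ℂ) + 2) * (((e + 1 : ℕ) : ℂ) + 1) * α)) *
        (U * Hf U V (e + 1))) *
        (C B * (U * (C ((((e + 1 : ℕ) : ℂ) + 1) * β) * Hf U V (e + 1)))))
      = Polynomial.C (-(A * B * (((e + 2 : ℕ) : ℂ) + 1) * β * (((e : ℂ) + 2) * ((e : ℂ) + 1) * α)))
          * (He e * He (e + 2))
        + Polynomial.C (A * B * α * ((((e + 2 : ℕ) : ℂ) + 1) * β)) * (He (e + 2) * He (e + 2))
        + Polynomial.C (A * B * ((((e + 1 : ℕ) : ℂ) + 2) * (((e + 1 : ℕ) : ℂ) + 1) * α) *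
          ((((e + 1 : ℕ) : ℂ) + 1) * β)) * (He (e + 1) * He (e + 1)) := by
    simp only [map_sub, map_mul, map_add, psi_C, psi_Hf hij hα hβ, hU, hV, psi_U hα, map_neg]
    ring
  rw [e1, map_add, map_add, Gau_C_mul, Gau_C_mul, Gau_C_mul, Gau_He_mul_He, Gau_He_mul_self,
    Gau_He_mul_self]
  have h3 : ((e + 2).factorial : ℂ) = ((e : ℂ) + 2) * ((e + 1).factorial : ℂ) := by
    rw [show e + 2 = (e + 1) + 1 by ring, Nat.factorial_succ]; push_cast; ring
  have hfac : ((e + 1).factorial : ℂ) ≠ 0 := Nat.cast_ne_zero.mpr (Nat.factorial_ne_zero _)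
  have n1 := cast_ne e 1 (by norm_num)
  have n2 := cast_ne e 2 (by norm_num)
  have n3 := cast_ne e 3 (by norm_num)
  have n4 := cast_ne e 4 (by norm_num)
  rw [h3]
  have e2 : -(A * B * (((e + 2 : ℕ) : ℂ) + 1) * β * (((e : ℂ) + 2) * ((e : ℂ) + 1) * α)) * 0
      + A * B * α * ((((e + 2 : ℕ) : ℂ) + 1) * β) * (((e : ℂ) + 2) * ((e + 1).factorial : ℂ))
      + A * B * ((((e + 1 : ℕ) : ℂ) + 2) * (((e + 1 : ℕ) : ℂ) + 1) * α) *
          ((((e + 1 : ℕ) : ℂ) + 1) * β) * ((e + 1).factorial : ℂ)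
      = A * B * α * β * ((e : ℂ) + (3 : ℕ)) * ((e : ℂ) + (2 : ℕ)) * ((e : ℂ) + (3 : ℕ)) *
          ((e + 1).factorial : ℂ) := by
    push_cast
    ring
  rw [e2]
  have hA0 : A ≠ 0 := by
    rw [hA]
    have : (((e + 3 : ℕ) : ℂ) + 1) ≠ 0 := Nat.cast_add_one_ne_zero _
    exact mul_ne_zero (mul_ne_zero hc this) hβ
  have hB0 : B ≠ 0 := by
    rw [hB]
    have h1 : (((e + 2 : ℕ) : ℂ) + 1) ≠ 0 := Nat.cast_add_one_ne_zero _
    have h2 := cast_ne (e + 2) 2 (by norm_num)
    exact neg_ne_zero.mpr (mul_ne_zero (mul_ne_zero (mul_ne_zero hc (by exact_mod_cast h2)) h1) hα)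
  exact mul_ne_zero (mul_ne_zero (mul_ne_zero (mul_ne_zero (mul_ne_zero (mul_ne_zero
    (mul_ne_zero hA0 hB0) hα) hβ) n3) n2) n3) hfac

end step2

end Pool.Agent.H22.AF
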